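import Pool.Agent.Q4.Omega.Filt

/-!
# A basis of the ring of symmetric functions adapted to the involution
-/

open MvPolynomial

namespace Q4.Omega

/-- The index set of the basis. -/
abbrev Idx := Finset ℕ × (ℕ →₀ ℕ)

/-- The exponent `1_N + 2 γ`. -/
noncomputable def toExp (p : Idx) : ℕ →₀ ℕ :=
  Finsupp.indicator p.1 (fun _ _ => 1) + p.2.mapRange (fun k => 2 * k) rfl

lemma toExp_apply (p : Idx) (m : ℕ) : toExp p m = (if m ∈ p.1 then 1 else 0) + 2 * p.2 m := by
  classical
  unfold toExp
  rw [Finsupp.add_apply, Finsupp.indicator_apply, Finsupp.mapRange_apply]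
  simp only [dite_eq_ite]

/-- The inverse map. -/
noncomputable def ofExp (a : ℕ →₀ ℕ) : Idx :=
  (a.support.filter (fun m => a m % 2 = 1), a.mapRange (fun k => k / 2) rfl)

lemma mem_ofExp (a : ℕ →₀ ℕ) (m : ℕ) : m ∈ (ofExp a).1 ↔ a m % 2 = 1 := by
  unfold ofExp
  rw [Finset.mem_filter, Finsupp.mem_support_iff]
  constructor
  · exact fun h => h.2
  · intro h
    exact ⟨by intro h0; rw [h0] at h; omega, h⟩

lemma ofExp_snd (a : ℕ →₀ ℕ) (m : ℕ) : (ofExp a).2 m = a m / 2 := by
  show (a.mapRange (fun k => k / 2) rfl) m = a m / 2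
  rw [Finsupp.mapRange_apply]

noncomputable def expEquiv : Idx ≃ (ℕ →₀ ℕ) where
  toFun := toExp
  invFun := ofExp
  left_inv := by
    intro p
    apply Prod.ext
    · ext m
      rw [mem_ofExp, toExp_apply]
      split_ifs with h
      · simp only [h, iff_true]; omega
      · simp only [h, iff_false]; omega
    · ext m
      rw [ofExp_snd, toExp_apply]
      split_ifs <;> omega
  right_inv := by
    intro a
    ext m
    rw [toExp_apply, ofExp_snd]
    by_cases h : m ∈ (ofExp a).1
    · rw [if_pos h]
      rw [mem_ofExp] at h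
      omega
    · rw [if_neg h]
      rw [mem_ofExp] at h
      omega

/-- The elements `w_{N,γ} = ∏_{m ∈ N} y_m ∏_m u_m^{γ_m}`. -/
noncomputable def w (p : Idx) : R := (∏ m ∈ p.1, y m) * p.2.prod fun m k => u m ^ k

lemma w_add (N : Finset ℕ) (γ γ' : ℕ →₀ ℕ) :
    w (N, γ + γ') = w (N, γ) * γ'.prod fun m k => u m ^ k := by
  unfold w
  show _ * (γ + γ').prod _ = (_ * γ.prod _) * _
  rw [Finsupp.prod_add_index' (by simp) (by intro m k l; exact pow_add _ _ _), mul_assoc]

lemma u_mul_w (j : ℕ) (N : Finset ℕ) (γ : ℕ →₀ ℕ) :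
    u j * w (N, γ) = w (N, γ + Finsupp.single j 1) := by
  rw [w_add, Finsupp.prod_single_index (by simp), pow_one, mul_comm]

lemma y_mul_w (m : ℕ) (N : Finset ℕ) (γ : ℕ →₀ ℕ) (hm : m ∉ N) :
    y m * w (N, γ) = w (insert m N, γ) := by
  unfold w
  show _ = (∏ m ∈ insert m N, y m) * _
  rw [Finset.prod_insert hm]
  ring

/-- The weight of an index. -/
noncomputable def wp (p : Idx) : ℕ := wt (toExp p)

lemma toExp_add (N : Finset ℕ) (γ : ℕ →₀ ℕ) (j : ℕ) :
    toExp (N, γ + Finsupp.single j 1) = toExp (N, γ) + Finsupp.single j 2 := by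
  ext m
  rw [Finsupp.add_apply, toExp_apply, toExp_apply]
  show _ + 2 * ((γ + Finsupp.single j 1 : ℕ →₀ ℕ) m) = _ + 2 * γ m + _
  rw [Finsupp.add_apply, Finsupp.single_apply, Finsupp.single_apply]
  split_ifs <;> ring

lemma wp_add (N : Finset ℕ) (γ : ℕ →₀ ℕ) (j : ℕ) :
    wp (N, γ + Finsupp.single j 1) = wp (N, γ) + (2 * j + 2) := by
  unfold wp
  rw [toExp_add, wt_add, wt_single]
  ring

/-- The space spanned by the `w_p` of weight at most `D`. -/
noncomputable def U (D : ℕ) : Submodule (ZMod 2) R :=
  Submodule.span (ZMod 2) {x | ∃ p, wp p ≤ D ∧ x = w p}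

lemma u_mul_mem_U {j D D' : ℕ} {x : R} (hx : x ∈ U D) (h : 2 * j + 2 + D ≤ D') :
    u j * x ∈ U D' := by
  induction hx using Submodule.span_induction with
  | mem x hx =>
    obtain ⟨⟨N, γ⟩, hp, rfl⟩ := hx
    refine Submodule.subset_span ⟨(N, γ + Finsupp.single j 1), ?_, u_mul_w _ _ _⟩
    rw [wp_add]
    omega
  | zero => rw [mul_zero]; exact Submodule.zero_mem _
  | add y z _ _ hy hz => rw [mul_add]; exact Submodule.add_mem _ hy hz
  | smul c y _ hy => rw [mul_smul_comm]; exact Submodule.smul_mem _ _ hy

/-- The monomials in the new generators. -/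
noncomputable def yy (a : ℕ →₀ ℕ) : R := a.prod fun m k => y m ^ k

lemma yy_add (a b : ℕ →₀ ℕ) : yy (a + b) = yy a * yy b := by
  unfold yy
  exact Finsupp.prod_add_index' (by simp) (by intro m k l; exact pow_add _ _ _)

/-- The space spanned by the monomials in the new generators of weight at most `D`. -/
noncomputable def Y (D : ℕ) : Submodule (ZMod 2) R :=
  Submodule.span (ZMod 2) {x | ∃ a, wt a ≤ D ∧ x = yy a}

lemma Y_mono {D D' : ℕ} (h : D ≤ D') : Y D ≤ Y D' := by
  apply Submodule.span_mono
  rintro x ⟨a, ha, hx⟩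
  exact ⟨a, ha.trans h, hx⟩

lemma one_mem_Y (D : ℕ) : (1 : R) ∈ Y D :=
  Submodule.subset_span ⟨0, by rw [wt_zero]; exact Nat.zero_le _, by simp [yy]⟩

lemma mul_mem_Y {D D' D'' : ℕ} {x y : R} (hx : x ∈ Y D) (hy : y ∈ Y D') (h : D + D' ≤ D'') :
    x * y ∈ Y D'' := by
  induction hx using Submodule.span_induction with
  | mem x hx =>
    obtain ⟨a, ha, rfl⟩ := hx
    induction hy using Submodule.span_induction with
    | mem y hy =>
      obtain ⟨b, hb, rfl⟩ := hy
      refine Submodule.subset_span ⟨a + b, ?_, ?_⟩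
      · rw [wt_add]; omega
      · rw [yy_add]
    | zero => rw [mul_zero]; exact Submodule.zero_mem _
    | add y z _ _ hy hz => rw [mul_add]; exact Submodule.add_mem _ hy hz
    | smul c y _ hy => rw [mul_smul_comm]; exact Submodule.smul_mem _ _ hy
  | zero => rw [zero_mul]; exact Submodule.zero_mem _
  | add x z _ _ hx hz => rw [add_mul]; exact Submodule.add_mem _ hx hz
  | smul c x _ hx => rw [smul_mul_assoc]; exact Submodule.smul_mem _ _ hx

lemma y_mem_Y (m : ℕ) : y m ∈ Y (m + 1) := by
  refine Submodule.subset_span ⟨Finsupp.single m 1, ?_, ?_⟩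
  · rw [wt_single]; omega
  · unfold yy
    rw [Finsupp.prod_single_index (by simp), pow_one]

lemma h_mem_Y (k : ℕ) (ih : ∀ i ≤ k, e i ∈ Y i) : h k ∈ Y k := by
  induction k using Nat.strong_induction_on with
  | _ k ih2 =>
    cases k with
    | zero => simpa [h] using one_mem_Y 0
    | succ k =>
      rw [h_rec]
      refine Submodule.neg_mem _ (Submodule.sum_mem _ ?_)
      intro i hi
      have hi := Finset.mem_range.mp hi
      exact mul_mem_Y (ih _ (by omega)) (ih2 _ (by omega) (fun j hj => ih j (by omega))) (by omega)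

lemma e_mem_Y (k : ℕ) : e k ∈ Y k := by
  induction k using Nat.strong_induction_on with
  | _ k ih =>
    cases k with
    | zero => simpa [e] using one_mem_Y 0
    | succ m =>
      by_cases hm : Even m
      · have h1 : y m = ∑ i ∈ (Finset.range (m + 2)).filter (fun i => ¬ Even i),
            e i * h (m + 1 - i) := by
          unfold y
          rw [if_pos hm]
        have h2 : m + 1 ∈ (Finset.range (m + 2)).filter (fun i => ¬ Even i) := by
          rw [Finset.mem_filter, Finset.mem_range]
          refine ⟨by omega, ?_⟩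
          rw [Nat.not_even_iff_odd]
          exact hm.add_one
        rw [← Finset.add_sum_erase _ _ h2, Nat.sub_self] at h1
        have h3 : e (m + 1) = y m + ∑ i ∈ ((Finset.range (m + 2)).filter
            (fun i => ¬ Even i)).erase (m + 1), e i * h (m + 1 - i) := by
          rw [h1, add_assoc, char2, add_zero]
          simp [h]
        rw [h3]
        refine Submodule.add_mem _ (y_mem_Y m) (Submodule.sum_mem _ ?_)
        intro i hi
        rw [Finset.mem_erase, Finset.mem_filter, Finset.mem_range] at hi
        obtain ⟨hi1, hi2, hi3⟩ := hi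
        have hi0 : i ≠ 0 := by rintro rfl; exact hi3 (by simp)
        exact mul_mem_Y (ih i (by omega)) (h_mem_Y _ (fun j hj => ih j (by omega))) (by omega)
      · have h1 : y m = e (m + 1) := by
          unfold y
          rw [if_neg hm]
        rw [← h1]
        exact y_mem_Y m

lemma V_le_Y (D : ℕ) : V D ≤ Y D := by
  have key : ∀ a : ℕ →₀ ℕ, (monomial a (1 : ZMod 2) : R) ∈ Y (wt a) := by
    intro a
    induction a using Finsupp.induction_linear with
    | zero => exact one_mem_Y _
    | add a b ha hb =>
      have : (monomial (a + b) (1 : ZMod 2) : R) = monomial a 1 * monomial b 1 := by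
        rw [monomial_mul, one_mul]
      rw [this, wt_add]
      exact mul_mem_Y ha hb le_rfl
    | single m k =>
      have h1 : (monomial (Finsupp.single m k) (1 : ZMod 2) : R) = e (m + 1) ^ k := by
        rw [← MvPolynomial.X_pow_eq_monomial]
        simp [e]
      rw [h1, wt_single]
      induction k with
      | zero => rw [pow_zero]; exact one_mem_Y _
      | succ k ih =>
        rw [pow_succ]
        exact mul_mem_Y (ih (by rw [← MvPolynomial.X_pow_eq_monomial]; simp [e]))
          (e_mem_Y _) (by ring_nf; exact le_rfl)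
  unfold V
  rw [Submodule.span_le]
  rintro x ⟨a, ha, rfl⟩
  exact Y_mono ha (key a)

lemma yy_mem_V (a : ℕ →₀ ℕ) : yy a ∈ V (wt a) := by
  induction a using Finsupp.induction_linear with
  | zero => simpa [yy] using one_mem_V _
  | add a b ha hb =>
    rw [yy_add, wt_add]
    exact mul_mem_V ha hb
  | single m k =>
    have h1 : yy (Finsupp.single m k) = y m ^ k := by
      unfold yy
      rw [Finsupp.prod_single_index (by simp)]
    rw [h1, wt_single]
    clear h1
    induction k with
    | zero => rw [pow_zero]; exact one_mem_V _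
    | succ k ih =>
      rw [pow_succ]
      exact mul_mem_V' ih (y_mem_V _) (by ring_nf; exact le_rfl)

lemma V_le_U (D : ℕ) : V D ≤ U D := by
  induction D using Nat.strong_induction_on with
  | _ D ih =>
    refine (V_le_Y D).trans ?_
    unfold Y
    rw [Submodule.span_le]
    rintro x ⟨a, ha, rfl⟩
    have hJ : JJ D ≤ U D := by
      unfold JJ
      rw [Submodule.span_le]
      rintro x ⟨j, D', f, h1, h2, rfl⟩
      exact u_mul_mem_U (ih D' (by omega) h2) h1
    by_cases hsq : ∀ m, a m < 2
    · -- squarefree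
      refine Submodule.subset_span ⟨expEquiv.symm a, ?_, ?_⟩
      · unfold wp
        have : toExp (expEquiv.symm a) = a := expEquiv.apply_symm_apply a
        rw [this]
        exact ha
      · show yy a = w (ofExp a)
        unfold w
        have h2 : (ofExp a).2 = 0 := by
          ext m
          rw [ofExp_snd]
          have := hsq m
          show a m / 2 = 0
          omega
        rw [h2, Finsupp.prod_zero_index, mul_one]
        unfold yy
        rw [Finsupp.prod]
        have h3 : (ofExp a).1 = a.support := by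
          ext m
          rw [mem_ofExp, Finsupp.mem_support_iff]
          have := hsq m
          omega
        rw [h3]
        refine Finset.prod_congr rfl ?_
        intro m hm
        have h4 : a m = 1 := by
          have := hsq m
          have := Finsupp.mem_support_iff.mp hm
          omega
        rw [h4, pow_one]
    · -- not squarefree
      push Not at hsq
      obtain ⟨m, hm⟩ := hsq
      obtain ⟨b, hb⟩ : ∃ b, a = b + Finsupp.single m 2 := by
        refine ⟨a - Finsupp.single m 2, ?_⟩
        rw [tsub_add_cancel_of_le]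
        rw [Finsupp.single_le_iff]
        exact hm
      have h1 : yy a = y m ^ 2 * yy b := by
        rw [hb, yy_add, mul_comm]
        congr 1
        unfold yy
        rw [Finsupp.prod_single_index (by simp)]
      rw [h1]
      apply hJ
      refine mul_mem_JJ' (y_sq_mem m) (yy_mem_V b) ?_
      rw [hb, wt_add, wt_single] at ha
      omega

lemma w_zero_mem_V (N : Finset ℕ) : w (N, 0) ∈ V (wp (N, 0)) := by
  induction N using Finset.induction_on with
  | empty => simpa [w] using one_mem_V _
  | insert m N hm ih =>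
    rw [← y_mul_w m N 0 hm]
    refine mul_mem_V' (y_mem_V m) ih ?_
    unfold wp
    have : toExp (insert m N, 0) = toExp (N, 0) + Finsupp.single m 1 := by
      ext k
      rw [Finsupp.add_apply, toExp_apply, toExp_apply, Finsupp.single_apply]
      show (if k ∈ insert m N then 1 else 0) + 2 * 0 = (if k ∈ N then 1 else 0) + 2 * 0 +
        (if m = k then 1 else 0)
      simp only [Finset.mem_insert]
      by_cases h1 : k = m
      · subst h1
        simp [hm]
      · have h2 : ¬ m = k := fun h => h1 h.symm
        simp [h1, h2]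
    rw [this, wt_add, wt_single]
    omega

lemma uprod_mem_V (γ : ℕ →₀ ℕ) :
    (γ.prod fun m k => u m ^ k) ∈ V (γ.sum fun m k => (2 * m + 2) * k) := by
  induction γ using Finsupp.induction_linear with
  | zero => simpa using one_mem_V _
  | add a b ha hb =>
    rw [Finsupp.prod_add_index' (by simp) (by intro m k l; exact pow_add _ _ _),
      Finsupp.sum_add_index' (by simp) (by intro m k l; ring)]
    exact mul_mem_V ha hb
  | single m k =>
    rw [Finsupp.prod_single_index (by simp), Finsupp.sum_single_index (by simp)]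
    induction k with
    | zero => rw [pow_zero]; exact one_mem_V _
    | succ k ih =>
      rw [pow_succ]
      exact mul_mem_V' ih (u_mem_V _) (by ring_nf; exact le_rfl)

lemma wp_eq (N : Finset ℕ) (γ : ℕ →₀ ℕ) :
    wp (N, γ) = wp (N, 0) + γ.sum fun m k => (2 * m + 2) * k := by
  unfold wp
  have : toExp (N, γ) = toExp (N, 0) + γ.mapRange (fun k => 2 * k) rfl := by
    ext m
    rw [Finsupp.add_apply, toExp_apply, toExp_apply, Finsupp.mapRange_apply]
    simp
  rw [this, wt_add]
  congr 1
  unfold wt
  rw [Finsupp.sum_mapRange_index (by simp)]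
  refine Finsupp.sum_congr ?_
  intro m _
  ring

lemma w_mem_V (p : Idx) : w p ∈ V (wp p) := by
  obtain ⟨N, γ⟩ := p
  have h1 : w (N, γ) = w (N, 0) * γ.prod fun m k => u m ^ k := by
    rw [← w_add, zero_add]
  rw [h1, wp_eq]
  exact mul_mem_V (w_zero_mem_V N) (uprod_mem_V γ)

lemma finite_wt (D : ℕ) : {a : ℕ →₀ ℕ | wt a ≤ D}.Finite := by
  refine Set.Finite.subset (Finset.finite_toSet
    (Finset.finsupp (Finset.range D) (fun _ => Finset.range (D + 1)))) ?_
  intro a ha
  have ha : wt a ≤ D := ha
  have key : ∀ m ∈ a.support, (m + 1) * a m ≤ D := by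
    intro m hm
    refine le_trans ?_ ha
    exact Finset.single_le_sum (f := fun m => (m + 1) * a m) (fun _ _ => Nat.zero_le _) hm
  rw [Finset.mem_coe, Finset.mem_finsupp_iff]
  constructor
  · intro m hm
    have h1 := key m hm
    have h2 : 1 ≤ a m := Nat.one_le_iff_ne_zero.mpr (Finsupp.mem_support_iff.mp hm)
    rw [Finset.mem_range]
    nlinarith
  · intro m _
    rw [Finset.mem_range]
    by_cases hm : m ∈ a.support
    · have h1 := key m hm
      nlinarith
    · rw [Finsupp.notMem_support_iff.mp hm]
      omega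

lemma U_le_V (D : ℕ) : U D ≤ V D := by
  unfold U
  rw [Submodule.span_le]
  rintro x ⟨p, hp, rfl⟩
  exact V_mono hp (w_mem_V p)

lemma linInd : LinearIndependent (ZMod 2) w := by
  have key : ∀ D : ℕ, LinearIndependent (ZMod 2)
      (fun a : {a : ℕ →₀ ℕ // wt a ≤ D} => w (expEquiv.symm a)) := by
    intro D
    have : Fintype {a : ℕ →₀ ℕ // wt a ≤ D} := (finite_wt D).fintype
    rw [linearIndependent_iff_card_eq_finrank_span]
    have hm : LinearIndependent (ZMod 2)
        (fun a : {a : ℕ →₀ ℕ // wt a ≤ D} => (monomial (a : ℕ →₀ ℕ) (1 : ZMod 2) : R)) := by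
      have h1 := (MvPolynomial.basisMonomials ℕ (ZMod 2)).linearIndependent
      have h2 := h1.comp (fun a : {a : ℕ →₀ ℕ // wt a ≤ D} => (a : ℕ →₀ ℕ))
        Subtype.val_injective
      have h3 : (fun a : {a : ℕ →₀ ℕ // wt a ≤ D} => (monomial (a : ℕ →₀ ℕ) (1 : ZMod 2) : R)) =
          (MvPolynomial.basisMonomials ℕ (ZMod 2)) ∘ fun a : {a : ℕ →₀ ℕ // wt a ≤ D} =>
            (a : ℕ →₀ ℕ) := by
        funext a
        rw [Function.comp_apply, MvPolynomial.coe_basisMonomials]
      rw [h3]
      exact h2
    rw [linearIndependent_iff_card_eq_finrank_span] at hm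
    rw [hm]
    unfold Set.finrank
    have e1 : Submodule.span (ZMod 2) (Set.range fun a : {a : ℕ →₀ ℕ // wt a ≤ D} =>
        (monomial (a : ℕ →₀ ℕ) (1 : ZMod 2) : R)) = V D := by
      unfold V
      congr 1
      ext x
      constructor
      · rintro ⟨a, rfl⟩
        exact ⟨a, a.2, rfl⟩
      · rintro ⟨a, ha, rfl⟩
        exact ⟨⟨a, ha⟩, rfl⟩
    have e2 : Submodule.span (ZMod 2) (Set.range fun a : {a : ℕ →₀ ℕ // wt a ≤ D} =>
        w (expEquiv.symm a)) = U D := by
      unfold U
      congr 1
      ext x
      constructor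
      · rintro ⟨a, rfl⟩
        refine ⟨expEquiv.symm a, ?_, rfl⟩
        unfold wp
        have : toExp (expEquiv.symm (a : ℕ →₀ ℕ)) = a := expEquiv.apply_symm_apply _
        rw [this]
        exact a.2
      · rintro ⟨p, hp, rfl⟩
        refine ⟨⟨expEquiv p, hp⟩, ?_⟩
        show w (expEquiv.symm (expEquiv p)) = w p
        rw [Equiv.symm_apply_apply]
    rw [e1, e2, le_antisymm (U_le_V D) (V_le_U D)]
  have key2 : LinearIndependent (ZMod 2) (fun a : ℕ →₀ ℕ => w (expEquiv.symm a)) := by
    rw [linearIndependent_iff_finset_linearIndependent]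
    intro s
    have h1 := (key (s.sup wt)).comp
      (fun a : s => (⟨(a : ℕ →₀ ℕ), Finset.le_sup a.2⟩ : {a : ℕ →₀ ℕ // wt a ≤ s.sup wt}))
      (by
        intro a b hab
        exact Subtype.ext (congrArg (fun t : {a : ℕ →₀ ℕ // wt a ≤ s.sup wt} => (t : ℕ →₀ ℕ)) hab))
    exact h1
  have h2 := key2.comp expEquiv expEquiv.injective
  have h3 : (fun a : ℕ →₀ ℕ => w (expEquiv.symm a)) ∘ expEquiv = w := by
    funext p
    show w (expEquiv.symm (expEquiv p)) = w p
    rw [Equiv.symm_apply_apply]
  rw [h3] at h2
  exact h2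

lemma span_w : ⊤ ≤ Submodule.span (ZMod 2) (Set.range w) := by
  intro x _
  induction x using MvPolynomial.induction_on' with
  | monomial a c =>
    have h1 : (monomial a c : R) = c • monomial a 1 := by
      rw [MvPolynomial.smul_monomial, smul_eq_mul, mul_one]
    rw [h1]
    apply Submodule.smul_mem
    have h2 : (monomial a (1 : ZMod 2) : R) ∈ U (wt a) :=
      V_le_U _ (Submodule.subset_span ⟨a, le_rfl, rfl⟩)
    refine Submodule.span_mono ?_ h2
    rintro x ⟨p, _, rfl⟩
    exact ⟨p, rfl⟩
  | add p q hp hq => exact Submodule.add_mem _ (hp trivial) (hq trivial)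

/-- The basis `w_{N,γ}` of the ring of symmetric functions. -/
noncomputable def B : Module.Basis Idx (ZMod 2) R := Module.Basis.mk linInd span_w

lemma B_apply (p : Idx) : B p = w p := by
  unfold B
  rw [Module.Basis.mk_apply]

end Q4.Omega
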