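import Mathlib

/-!
# Symmetric functions over `𝔽₂` and the involution `ω`
-/

open MvPolynomial

namespace Q4.Omega

/-- The ring of symmetric functions over `𝔽₂`, as the polynomial ring in the elementary symmetric
functions: the variable `X i` is `e_{i+1}`. -/
abbrev R := MvPolynomial ℕ (ZMod 2)

/-- The elementary symmetric function `e_k` (`e_0 = 1`). -/
noncomputable def e (k : ℕ) : R := if k = 0 then 1 else X (k - 1)

/-- The complete homogeneous symmetric function `h_k`, determined by `h_0 = 1` and
`∑_{i=0}^{k} e_i h_{k-i} = 0` for `k ≥ 1`. -/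
noncomputable def h : ℕ → R
  | 0 => 1
  | k + 1 => -∑ i : Fin (k + 1), e (i + 1) * h (k - i)
decreasing_by exact Nat.lt_succ_of_le (Nat.sub_le _ _)

/-- The relation that determines the `h_k`. -/
lemma sum_e_h (k : ℕ) (hk : 1 ≤ k) : ∑ i ∈ Finset.range (k + 1), e i * h (k - i) = 0 := by
  obtain ⟨k, rfl⟩ := Nat.exists_eq_add_of_le' hk
  rw [Finset.sum_range_succ']
  have h0 : e 0 * h (k + 1 - 0) = h (k + 1) := by simp [e]
  rw [h0, h, Finset.sum_range]
  have : ∀ i : Fin (k + 1), e ((i : ℕ) + 1) * h (k + 1 - ((i : ℕ) + 1)) =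
      e ((i : ℕ) + 1) * h (k - i) := by
    intro i
    rw [Nat.add_sub_add_right]
  rw [Finset.sum_congr rfl (fun i _ => this i)]
  exact add_neg_cancel _

/-- The ring endomorphism `ω` with `ω(e_k) = h_k` for all `k ≥ 1`. -/
noncomputable def ω : R →ₐ[ZMod 2] R := aeval fun i => h (i + 1)

/-- The subring `S` of the `ω`-invariant elements. -/
noncomputable def S : Subring R := (ω : R →+* R).eqLocus (RingHom.id R)

lemma mem_S {x : R} : x ∈ S ↔ ω x = x := Iff.rfl

/-- The ideal `I = {x + ω(x)}` of `S`. -/
noncomputable def I : Ideal S where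
  carrier := {s | ∃ x : R, (s : R) = x + ω x}
  add_mem' := by
    rintro s t ⟨x, hx⟩ ⟨y, hy⟩
    refine ⟨x + y, ?_⟩
    show (s : R) + t = _
    rw [hx, hy, map_add]
    ring
  zero_mem' := ⟨0, by simp⟩
  smul_mem' := by
    rintro c s ⟨x, hx⟩
    refine ⟨c * x, ?_⟩
    show (c : R) * s = _
    rw [hx, map_mul, mem_S.mp c.2]
    ring

lemma omega_e (k : ℕ) : ω (e k) = h k := by
  cases k with
  | zero => simp [e, h]
  | succ k => simp [e, ω]

lemma char2 (x : R) : x + x = 0 := CharTwo.add_self_eq_zero x

lemma omega_h (k : ℕ) : ω (h k) = e k := by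
  induction k using Nat.strong_induction_on with
  | _ k ih =>
    rcases Nat.eq_zero_or_pos k with rfl | hk
    · simp [e, h]
    · have h1 := congrArg ω (sum_e_h k hk)
      rw [map_sum, map_zero, Finset.sum_range_succ'] at h1
      have h2 := sum_e_h k hk
      rw [← Finset.sum_range_reflect, Finset.sum_range_succ'] at h2
      have h3 : ∀ i ∈ Finset.range k, ω (e (i + 1) * h (k - (i + 1))) =
          e (k + 1 - 1 - (i + 1)) * h (k - (k + 1 - 1 - (i + 1))) := by
        intro i hi
        have hi := Finset.mem_range.mp hi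
        have e1 : k + 1 - 1 - (i + 1) = k - (i + 1) := by omega
        have e2 : k - (k + 1 - 1 - (i + 1)) = i + 1 := by omega
        rw [e2, e1, map_mul, omega_e, ih _ (by omega), mul_comm]
      rw [Finset.sum_congr rfl h3] at h1
      have h4 : ω (e 0 * h (k - 0)) = ω (h k) := by simp [e]
      have h5 : e (k + 1 - 1 - 0) * h (k - (k + 1 - 1 - 0)) = e k := by
        simp [h]
      rw [h4] at h1
      rw [h5] at h2
      exact add_left_cancel (h1.trans h2.symm)

/-- `ω` is an involution. -/
lemma omega_omega (x : R) : ω (ω x) = x := by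
  have : (ω.comp ω) = AlgHom.id (ZMod 2) R := by
    apply MvPolynomial.algHom_ext
    intro i
    have h1 : (X i : R) = e (i + 1) := by simp [e]
    rw [h1, AlgHom.comp_apply, omega_e, omega_h]
    rfl
  exact DFunLike.congr_fun this x

/-- All elements `x + ω(x)` are in `S`. -/
lemma add_omega_mem (x : R) : x + ω x ∈ S := by
  rw [mem_S, map_add, omega_omega, add_comm]

end Q4.Omega
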