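import Pool.Agent.Q4.Omega.Defs

/-!
# The weight filtration and the new generators
-/

open MvPolynomial

namespace Q4.Omega

/-- The weight of a monomial. -/
def wt (a : ℕ →₀ ℕ) : ℕ := a.sum fun m k => (m + 1) * k

lemma wt_zero : wt 0 = 0 := by simp [wt]

lemma wt_add (a b : ℕ →₀ ℕ) : wt (a + b) = wt a + wt b := by
  unfold wt
  exact Finsupp.sum_add_index' (by simp) (by intro m k l; ring)

lemma wt_single (m k : ℕ) : wt (Finsupp.single m k) = (m + 1) * k := by
  unfold wt
  exact Finsupp.sum_single_index (by simp)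

/-- The polynomials of weight at most `D`. -/
noncomputable def V (D : ℕ) : Submodule (ZMod 2) R :=
  Submodule.span (ZMod 2) {x | ∃ a, wt a ≤ D ∧ x = monomial a 1}

lemma V_mono {D D' : ℕ} (h : D ≤ D') : V D ≤ V D' := by
  apply Submodule.span_mono
  rintro x ⟨a, ha, hx⟩
  exact ⟨a, ha.trans h, hx⟩

lemma one_mem_V (D : ℕ) : (1 : R) ∈ V D :=
  Submodule.subset_span ⟨0, by rw [wt_zero]; exact Nat.zero_le _, rfl⟩

lemma mul_mem_V {D D' : ℕ} {x y : R} (hx : x ∈ V D) (hy : y ∈ V D') : x * y ∈ V (D + D') := by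
  induction hx using Submodule.span_induction with
  | mem x hx =>
    obtain ⟨a, ha, rfl⟩ := hx
    induction hy using Submodule.span_induction with
    | mem y hy =>
      obtain ⟨b, hb, rfl⟩ := hy
      refine Submodule.subset_span ⟨a + b, ?_, ?_⟩
      · rw [wt_add]; omega
      · rw [monomial_mul, one_mul]
    | zero => rw [mul_zero]; exact Submodule.zero_mem _
    | add y z _ _ hy hz => rw [mul_add]; exact Submodule.add_mem _ hy hz
    | smul c y _ hy => rw [mul_smul_comm]; exact Submodule.smul_mem _ _ hy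
  | zero => rw [zero_mul]; exact Submodule.zero_mem _
  | add x z _ _ hx hz => rw [add_mul]; exact Submodule.add_mem _ hx hz
  | smul c x _ hx => rw [smul_mul_assoc]; exact Submodule.smul_mem _ _ hx

lemma mul_mem_V' {D D' D'' : ℕ} {x y : R} (hx : x ∈ V D) (hy : y ∈ V D') (h : D + D' ≤ D'') :
    x * y ∈ V D'' := V_mono h (mul_mem_V hx hy)

lemma e_mem_V (k : ℕ) : e k ∈ V k := by
  cases k with
  | zero => simpa [e] using one_mem_V 0
  | succ k =>
    refine Submodule.subset_span ⟨Finsupp.single k 1, ?_, ?_⟩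
    · rw [wt_single]; omega
    · simp [e, X]

lemma h_rec (k : ℕ) : h (k + 1) = -∑ i ∈ Finset.range (k + 1), e (i + 1) * h (k - i) := by
  rw [h, Finset.sum_range]

lemma h_mem_V (k : ℕ) : h k ∈ V k := by
  induction k using Nat.strong_induction_on with
  | _ k ih =>
    cases k with
    | zero => simpa [h] using one_mem_V 0
    | succ k =>
      rw [h_rec]
      refine Submodule.neg_mem _ (Submodule.sum_mem _ ?_)
      intro i hi
      have hi := Finset.mem_range.mp hi
      exact mul_mem_V' (e_mem_V _) (ih _ (by omega)) (by omega)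

/-- The elements `u_m = e_{2m+2} + ω(e_{2m+2})`. -/
noncomputable def u (m : ℕ) : R := e (2 * m + 2) + h (2 * m + 2)

/-- The new generators: `y m = e_{m+1}` for odd `m`, and an invariant element for even `m`. -/
noncomputable def y (m : ℕ) : R :=
  if Even m then ∑ i ∈ (Finset.range (m + 2)).filter (fun i => ¬ Even i), e i * h (m + 1 - i)
  else e (m + 1)

lemma u_mem_V (m : ℕ) : u m ∈ V (2 * m + 2) := Submodule.add_mem _ (e_mem_V _) (h_mem_V _)

lemma y_mem_V (m : ℕ) : y m ∈ V (m + 1) := by
  unfold y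
  split_ifs
  · refine Submodule.sum_mem _ ?_
    intro i hi
    have hi := Finset.mem_range.mp (Finset.mem_filter.mp hi).1
    exact mul_mem_V' (e_mem_V _) (h_mem_V _) (by omega)
  · exact e_mem_V _

lemma omega_u (m : ℕ) : ω (u m) = u m := by
  unfold u
  rw [map_add, omega_e, omega_h, add_comm]

lemma omega_y_odd (j : ℕ) : ω (y (2 * j + 1)) = y (2 * j + 1) + u j := by
  have h1 : y (2 * j + 1) = e (2 * j + 2) := by
    unfold y
    rw [if_neg (by simp)]
  rw [h1, omega_e]
  unfold u
  rw [← add_assoc, char2, zero_add]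

lemma omega_y_even (m : ℕ) (hm : Even m) : ω (y m) = y m := by
  have h1 : y m = ∑ i ∈ (Finset.range (m + 2)).filter (fun i => ¬ Even i), e i * h (m + 1 - i) := by
    unfold y
    rw [if_pos hm]
  have h2 := sum_e_h (m + 1) (by omega)
  rw [← Finset.sum_filter_add_sum_filter_not _ (fun i => Even i)] at h2
  have h3 : ω (y m) = ∑ i ∈ (Finset.range (m + 1 + 1)).filter (fun i => Even i),
      e i * h (m + 1 - i) := by
    rw [h1, map_sum]
    refine Finset.sum_bij' (fun i _ => m + 1 - i) (fun i _ => m + 1 - i) ?_ ?_ ?_ ?_ ?_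
    · intro i hi
      rw [Finset.mem_filter, Finset.mem_range] at hi ⊢
      refine ⟨by omega, ?_⟩
      obtain ⟨hi1, hi2⟩ := hi
      rw [Nat.even_sub (by omega)]
      simp only [hi2, iff_false, Nat.not_even_iff_odd]
      exact hm.add_one
    · intro i hi
      rw [Finset.mem_filter, Finset.mem_range] at hi ⊢
      refine ⟨by omega, ?_⟩
      obtain ⟨hi1, hi2⟩ := hi
      rw [Nat.even_sub (by omega)]
      simp only [hi2, iff_true, Nat.not_even_iff_odd]
      exact hm.add_one
    · intro i hi
      have := Finset.mem_range.mp (Finset.mem_filter.mp hi).1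
      show m + 1 - (m + 1 - i) = i
      omega
    · intro i hi
      have := Finset.mem_range.mp (Finset.mem_filter.mp hi).1
      show m + 1 - (m + 1 - i) = i
      omega
    · intro i hi
      have := Finset.mem_range.mp (Finset.mem_filter.mp hi).1
      show ω (e i * h (m + 1 - i)) = e (m + 1 - i) * h (m + 1 - (m + 1 - i))
      rw [map_mul, omega_e, omega_h, show m + 1 - (m + 1 - i) = i by omega, mul_comm]
  rw [← h3, ← h1] at h2
  calc ω (y m) = ω (y m) + (y m + y m) := by rw [char2, add_zero]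
    _ = (ω (y m) + y m) + y m := by rw [add_assoc]
    _ = y m := by rw [h2, zero_add]

/-- The sum over the antidiagonal of a symmetric product in characteristic two. -/
lemma sum_antidiag (a : ℕ → R) (n : ℕ) :
    ∑ p ∈ Finset.HasAntidiagonal.antidiagonal n, a p.1 * a p.2 = if Even n then a (n / 2) ^ 2 else 0 := by
  classical
  have key : ∑ p ∈ (Finset.HasAntidiagonal.antidiagonal n).filter (fun p => ¬ p.1 = p.2), a p.1 * a p.2 = 0 := by
    refine Finset.sum_involution (fun p _ => (p.2, p.1)) ?_ ?_ ?_ ?_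
    · intro p _
      show a p.1 * a p.2 + a p.2 * a p.1 = 0
      rw [mul_comm (a p.2), char2]
    · intro p hp _ h
      have h1 := (Finset.mem_filter.mp hp).2
      exact h1 (congrArg Prod.fst h).symm
    · intro p hp
      rw [Finset.mem_filter, Finset.HasAntidiagonal.mem_antidiagonal] at hp ⊢
      exact ⟨by show p.2 + p.1 = n; omega, fun h => hp.2 h.symm⟩
    · intro p _
      rfl
  rw [← Finset.sum_filter_add_sum_filter_not _ (fun p => p.1 = p.2), key, add_zero]
  split_ifs with hn
  · obtain ⟨k, hk⟩ := hn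
    have : (Finset.HasAntidiagonal.antidiagonal n).filter (fun p => p.1 = p.2) = {(k, k)} := by
      ext ⟨p, q⟩
      rw [Finset.mem_filter, Finset.HasAntidiagonal.mem_antidiagonal, Finset.mem_singleton, Prod.mk.injEq]
      show (p + q = n ∧ p = q) ↔ _
      omega
    rw [this, Finset.sum_singleton, show n / 2 = k by omega]
    ring
  · have : (Finset.HasAntidiagonal.antidiagonal n).filter (fun p => p.1 = p.2) = ∅ := by
      rw [Finset.filter_eq_empty_iff]
      rintro ⟨p, q⟩ hp h
      rw [Finset.HasAntidiagonal.mem_antidiagonal] at hp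
      apply hn
      exact ⟨p, by show n = p + p; simp only at h hp; omega⟩
    rw [this, Finset.sum_empty]

/-- The coefficients of the square of the generating series of the `e_k`. -/
noncomputable def c (n : ℕ) : R := if Even n then e (n / 2) ^ 2 else 0

lemma e_eq (n : ℕ) : e n = ∑ i ∈ Finset.range (n + 1), c i * h (n - i) := by
  have hE : (PowerSeries.mk e) * (PowerSeries.mk h) = (1 : PowerSeries R) := by
    ext1 k
    rw [PowerSeries.coeff_mul, Finset.Nat.sum_antidiagonal_eq_sum_range_succ_mk]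
    simp only [PowerSeries.coeff_mk]
    rcases Nat.eq_zero_or_pos k with rfl | hk
    · simp [e, h]
    · rw [sum_e_h k hk, PowerSeries.coeff_one, if_neg (by omega)]
  have hc : (PowerSeries.mk e) * (PowerSeries.mk e) = (PowerSeries.mk c : PowerSeries R) := by
    ext1 k
    rw [PowerSeries.coeff_mul]
    simp only [PowerSeries.coeff_mk]
    exact sum_antidiag e k
  have h1 : (PowerSeries.mk e : PowerSeries R) = PowerSeries.mk c * PowerSeries.mk h := by
    rw [← hc, mul_assoc, hE, mul_one]
  have h2 := congrArg (PowerSeries.coeff n) h1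
  rw [PowerSeries.coeff_mul, Finset.Nat.sum_antidiagonal_eq_sum_range_succ_mk] at h2
  simpa only [PowerSeries.coeff_mk] using h2

lemma u_eq (m : ℕ) : u m = e (m + 1) ^ 2 +
    ∑ i ∈ Finset.range (2 * m + 1), c (i + 1) * h (2 * m + 1 - i) := by
  have h1 := e_eq (2 * m + 2)
  rw [Finset.sum_range_succ, Finset.sum_range_succ'] at h1
  have h2 : c (2 * m + 2) * h (2 * m + 2 - (2 * m + 2)) = e (m + 1) ^ 2 := by
    unfold c
    rw [if_pos ⟨m + 1, by ring⟩, Nat.sub_self, show (2 * m + 2) / 2 = m + 1 by omega]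
    simp [h]
  have h3 : c 0 * h (2 * m + 2 - 0) = h (2 * m + 2) := by
    simp [c, e]
  rw [h2, h3] at h1
  have h4 : ∀ i, 2 * m + 2 - (i + 1) = 2 * m + 1 - i := by intro i; omega
  simp only [h4] at h1
  unfold u
  rw [h1]
  calc _ = (∑ i ∈ Finset.range (2 * m + 1), c (i + 1) * h (2 * m + 1 - i)) +
        (h (2 * m + 2) + h (2 * m + 2)) + e (m + 1) ^ 2 := by ring
    _ = _ := by rw [char2]; ring

/-- The space spanned by the products `u_j f` of weight at most `D`. -/
noncomputable def JJ (D : ℕ) : Submodule (ZMod 2) R :=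
  Submodule.span (ZMod 2) {x | ∃ j D' f, 2 * j + 2 + D' ≤ D ∧ f ∈ V D' ∧ x = u j * f}

lemma JJ_mono {D D' : ℕ} (h : D ≤ D') : JJ D ≤ JJ D' := by
  apply Submodule.span_mono
  rintro x ⟨j, E, f, h1, h2, h3⟩
  exact ⟨j, E, f, h1.trans h, h2, h3⟩

lemma mul_mem_JJ {D D' : ℕ} {x z : R} (hx : x ∈ JJ D) (hz : z ∈ V D') : x * z ∈ JJ (D + D') := by
  induction hx using Submodule.span_induction with
  | mem x hx =>
    obtain ⟨j, E, f, h1, h2, rfl⟩ := hx
    refine Submodule.subset_span ⟨j, E + D', f * z, by omega, mul_mem_V h2 hz, by ring⟩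
  | zero => rw [zero_mul]; exact Submodule.zero_mem _
  | add x z _ _ hx hz => rw [add_mul]; exact Submodule.add_mem _ hx hz
  | smul c x _ hx => rw [smul_mul_assoc]; exact Submodule.smul_mem _ _ hx

lemma mul_mem_JJ' {D D' D'' : ℕ} {x z : R} (hx : x ∈ JJ D) (hz : z ∈ V D') (h : D + D' ≤ D'') :
    x * z ∈ JJ D'' := JJ_mono h (mul_mem_JJ hx hz)

lemma e_sq_mem (m : ℕ) : e (m + 1) ^ 2 ∈ JJ (2 * m + 2) := by
  induction m using Nat.strong_induction_on with
  | _ m ih =>
    have h1 : e (m + 1) ^ 2 = u m +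
        ∑ i ∈ Finset.range (2 * m + 1), c (i + 1) * h (2 * m + 1 - i) := by
      rw [u_eq, add_assoc, char2, add_zero]
    rw [h1]
    refine Submodule.add_mem _ ?_ (Submodule.sum_mem _ ?_)
    · exact Submodule.subset_span ⟨m, 0, 1, by omega, one_mem_V 0, (mul_one _).symm⟩
    · intro i hi
      have hi := Finset.mem_range.mp hi
      unfold c
      split_ifs with hi2
      · obtain ⟨k, hk⟩ := hi2
        obtain ⟨k, rfl⟩ : ∃ k', k = k' + 1 := ⟨k - 1, by omega⟩
        rw [show (i + 1) / 2 = k + 1 by omega]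
        exact mul_mem_JJ' (ih k (by omega)) (h_mem_V _) (by omega)
      · rw [zero_mul]
        exact Submodule.zero_mem _

lemma y_sq_mem (m : ℕ) : y m ^ 2 ∈ JJ (2 * m + 2) := by
  unfold y
  split_ifs with hm
  · rw [sum_pow_char 2]
    refine Submodule.sum_mem _ ?_
    intro i hi
    rw [Finset.mem_filter, Finset.mem_range] at hi
    obtain ⟨k, rfl⟩ : ∃ k', i = k' + 1 := ⟨i - 1, by
      have : i ≠ 0 := by rintro rfl; exact hi.2 (by simp)
      omega⟩
    rw [mul_pow]
    refine mul_mem_JJ' (e_sq_mem k) (D' := 2 * (m + 1 - (k + 1))) ?_ (by omega)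
    rw [pow_two]
    exact mul_mem_V' (h_mem_V _) (h_mem_V _) (by omega)
  · exact e_sq_mem m

end Q4.Omega
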