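import Pool.Agent.Q4.Omega.Basis

/-!
# Transversality of the involution
-/

open MvPolynomial

namespace Q4.Omega

/-- The span of the `w_{N,γ}` with `N ⊆ s` and `γ` supported in `[0, i]`. -/
noncomputable def P (i : ℕ) (s : Finset ℕ) : Submodule (ZMod 2) R :=
  Submodule.span (ZMod 2) {x | ∃ p : Idx, p.1 ⊆ s ∧ (∀ j ∈ p.2.support, j ≤ i) ∧ x = w p}

lemma P_mono (i : ℕ) {s t : Finset ℕ} (h : s ⊆ t) : P i s ≤ P i t := by
  apply Submodule.span_mono
  rintro x ⟨p, h1, h2, h3⟩
  exact ⟨p, h1.trans h, h2, h3⟩

lemma y_mul_P {i : ℕ} {s : Finset ℕ} {m : ℕ} (hm : m ∉ s) {x : R} (hx : x ∈ P i s) :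
    y m * x ∈ P i (insert m s) := by
  induction hx using Submodule.span_induction with
  | mem x hx =>
    obtain ⟨⟨N, γ⟩, h1, h2, rfl⟩ := hx
    refine Submodule.subset_span ⟨(insert m N, γ), ?_, h2, ?_⟩
    · exact Finset.insert_subset_insert _ h1
    · exact y_mul_w m N γ (fun h => hm (h1 h))
  | zero => rw [mul_zero]; exact Submodule.zero_mem _
  | add y z _ _ hy hz => rw [mul_add]; exact Submodule.add_mem _ hy hz
  | smul c y _ hy => rw [mul_smul_comm]; exact Submodule.smul_mem _ _ hy

lemma u_mul_P {i : ℕ} {s : Finset ℕ} {j : ℕ} (hj : j ≤ i) {x : R} (hx : x ∈ P i s) :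
    u j * x ∈ P i s := by
  induction hx using Submodule.span_induction with
  | mem x hx =>
    obtain ⟨⟨N, γ⟩, h1, h2, rfl⟩ := hx
    refine Submodule.subset_span ⟨(N, γ + Finsupp.single j 1), h1, ?_, u_mul_w _ _ _⟩
    intro k hk
    rcases Finset.mem_union.mp (Finsupp.support_add hk) with h | h
    · exact h2 k h
    · rw [Finset.mem_singleton.mp (Finsupp.support_single_subset h)]
      exact hj
  | zero => rw [mul_zero]; exact Submodule.zero_mem _
  | add y z _ _ hy hz => rw [mul_add]; exact Submodule.add_mem _ hy hz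
  | smul c y _ hy => rw [mul_smul_comm]; exact Submodule.smul_mem _ _ hy

/-- The part below the index `i`. -/
def Low (i : ℕ) (p : Idx) : Prop := (∀ j, 2 * j + 1 ∈ p.1 → j < i) ∧ ∀ j ∈ p.2.support, j ≤ i

noncomputable def L (i : ℕ) : Submodule (ZMod 2) R :=
  Submodule.span (ZMod 2) {x | ∃ p : Idx, Low i p ∧ x = w p}

lemma omega_w (N : Finset ℕ) (γ : ℕ →₀ ℕ) :
    ω (w (N, γ)) = (∏ m ∈ N, ω (y m)) * γ.prod fun m k => u m ^ k := by
  unfold w
  rw [map_mul, map_prod, map_finsuppProd]
  congr 1
  refine Finsupp.prod_congr ?_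
  intro m _
  rw [map_pow, omega_u]

lemma omega_w_mem (i : ℕ) (p : Idx) (hp : Low i p) : ω (w p) ∈ L i := by
  obtain ⟨N, γ⟩ := p
  obtain ⟨h1, h2⟩ := hp
  rw [omega_w]
  have key : (∏ m ∈ N, ω (y m)) * (γ.prod fun m k => u m ^ k) ∈ P i N := by
    induction N using Finset.induction_on with
    | empty =>
      refine Submodule.subset_span ⟨(∅, γ), le_rfl, h2, rfl⟩
    | insert m N hm ih =>
      have ih := ih (fun j hj => h1 j (Finset.mem_insert_of_mem hj)) h2
      rw [Finset.prod_insert hm, mul_assoc]
      by_cases hm2 : Even m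
      · rw [omega_y_even m hm2]
        exact y_mul_P hm ih
      · rw [Nat.not_even_iff_odd] at hm2
        obtain ⟨j, rfl⟩ := hm2
        rw [omega_y_odd, add_mul]
        refine Submodule.add_mem _ (y_mul_P hm ih) ?_
        refine P_mono i (Finset.subset_insert _ _) (u_mul_P ?_ ih)
        exact (h1 j (Finset.mem_insert_self _ _)).le
  refine Submodule.span_mono ?_ key
  rintro x ⟨p, h3, h4, h5⟩
  exact ⟨p, ⟨fun j hj => h1 j (h3 hj), h4⟩, h5⟩

/-- The indices occurring in `p`. -/
noncomputable def T (p : Idx) : Finset ℕ :=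
  p.2.support ∪ (p.1.filter fun m => ¬ Even m).image fun m => m / 2

lemma mem_T (p : Idx) (j : ℕ) : j ∈ T p ↔ p.2 j ≠ 0 ∨ 2 * j + 1 ∈ p.1 := by
  unfold T
  rw [Finset.mem_union, Finsupp.mem_support_iff, Finset.mem_image]
  refine or_congr Iff.rfl ?_
  constructor
  · rintro ⟨m, hm, rfl⟩
    rw [Finset.mem_filter, Nat.not_even_iff_odd] at hm
    obtain ⟨hm, ⟨k, rfl⟩⟩ := hm
    rw [show (2 * k + 1) / 2 = k by omega]
    exact hm
  · intro h
    refine ⟨2 * j + 1, ?_, by omega⟩
    rw [Finset.mem_filter]
    exact ⟨h, by simp⟩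

/-- The values of the homotopy on the basis. -/
noncomputable def Sfun (p : Idx) : R :=
  if h : (T p).Nonempty then
    (if 2 * (T p).max' h + 1 ∈ p.1 then 0
      else (y (2 * (T p).max' h + 1) + u ((T p).max' h)) *
        w (p.1, p.2 - Finsupp.single ((T p).max' h) 1))
  else 0

/-- The homotopy. -/
noncomputable def H : R →ₗ[ZMod 2] R := B.constr (ZMod 2) Sfun

lemma H_w (p : Idx) : H (w p) = Sfun p := by
  unfold H
  rw [← B_apply, Module.Basis.constr_basis]

lemma max_eq {s : Finset ℕ} {i : ℕ} (hi : i ∈ s) (h : ∀ j ∈ s, j ≤ i) :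
    s.max' ⟨i, hi⟩ = i :=
  le_antisymm (Finset.max'_le _ _ _ h) (Finset.le_max' _ _ hi)

lemma H_u (i : ℕ) {z : R} (hz : z ∈ L i) : H (u i * z) = (y (2 * i + 1) + u i) * z := by
  induction hz using Submodule.span_induction with
  | mem x hx =>
    obtain ⟨⟨N, γ⟩, ⟨h1, h2⟩, rfl⟩ := hx
    rw [u_mul_w, H_w]
    unfold Sfun
    have hi : i ∈ T (N, γ + Finsupp.single i 1) := by
      rw [mem_T]
      left
      show (γ + Finsupp.single i 1 : ℕ →₀ ℕ) i ≠ 0
      rw [Finsupp.add_apply, Finsupp.single_eq_same]
      omega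
    have hmax : ∀ j ∈ T (N, γ + Finsupp.single i 1), j ≤ i := by
      intro j hj
      rw [mem_T] at hj
      rcases hj with hj | hj
      · change (γ + Finsupp.single i 1 : ℕ →₀ ℕ) j ≠ 0 at hj
        rw [Finsupp.add_apply, Finsupp.single_apply] at hj
        by_cases hij : i = j
        · exact hij.ge
        · rw [if_neg hij, add_zero] at hj
          exact h2 j (Finsupp.mem_support_iff.mpr hj)
      · exact (h1 j hj).le
    rw [dif_pos ⟨i, hi⟩, max_eq hi hmax, if_neg (fun h => lt_irrefl _ (h1 i h))]
    congr 2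
    show (N, γ + Finsupp.single i 1 - Finsupp.single i 1) = (N, γ)
    rw [add_tsub_cancel_right]
  | zero => rw [mul_zero, mul_zero, map_zero]
  | add y z _ _ hy hz => rw [mul_add, map_add, hy, hz, mul_add]
  | smul c y _ hy => rw [mul_smul_comm, map_smul, hy, mul_smul_comm]

lemma H_y (i : ℕ) {z : R} (hz : z ∈ L i) : H (y (2 * i + 1) * z) = 0 := by
  induction hz using Submodule.span_induction with
  | mem x hx =>
    obtain ⟨⟨N, γ⟩, ⟨h1, h2⟩, rfl⟩ := hx
    have hN : 2 * i + 1 ∉ N := fun h => lt_irrefl _ (h1 i h)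
    rw [y_mul_w _ _ _ hN, H_w]
    unfold Sfun
    have hi : i ∈ T (insert (2 * i + 1) N, γ) := by
      rw [mem_T]
      right
      exact Finset.mem_insert_self _ _
    have hmax : ∀ j ∈ T (insert (2 * i + 1) N, γ), j ≤ i := by
      intro j hj
      rw [mem_T] at hj
      rcases hj with hj | hj
      · exact h2 j (Finsupp.mem_support_iff.mpr hj)
      · rcases Finset.mem_insert.mp hj with h | h
        · omega
        · exact (h1 j h).le
    rw [dif_pos ⟨i, hi⟩, max_eq hi hmax, if_pos (Finset.mem_insert_self _ _)]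
  | zero => rw [mul_zero, map_zero]
  | add y z _ _ hy hz => rw [mul_add, map_add, hy, hz, add_zero]
  | smul c y _ hy => rw [mul_smul_comm, map_smul, hy, smul_zero]

/-- The homotopy identity on the basis. -/
lemma homotopy_w (p : Idx) (hp : (T p).Nonempty) :
    H (w p + ω (w p)) + (H (w p) + ω (H (w p))) = ω (w p) := by
  obtain ⟨N, γ⟩ := p
  set i := (T (N, γ)).max' hp with hi
  have hiT : i ∈ T (N, γ) := Finset.max'_mem _ _
  have hmax : ∀ j ∈ T (N, γ), j ≤ i := fun j hj => Finset.le_max' _ _ hj
  have homθ : ω (y (2 * i + 1) + u i) = y (2 * i + 1) := by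
    rw [map_add, omega_y_odd, omega_u, add_assoc, char2, add_zero]
  by_cases hN : 2 * i + 1 ∈ N
  · -- the second case
    have hlow : Low i (N.erase (2 * i + 1), γ) := by
      constructor
      · intro j hj
        have hj2 := Finset.mem_erase.mp hj
        have h1 : j ≤ i := hmax j ((mem_T _ _).mpr (Or.inr hj2.2))
        rcases h1.lt_or_eq with h | h
        · exact h
        · subst h
          exact absurd rfl hj2.1
      · intro j hj
        exact hmax j ((mem_T _ _).mpr (Or.inl (Finsupp.mem_support_iff.mp hj)))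
    have hz : w (N.erase (2 * i + 1), γ) ∈ L i := Submodule.subset_span ⟨_, hlow, rfl⟩
    have hoz := omega_w_mem i _ hlow
    have hw : w (N, γ) = y (2 * i + 1) * w (N.erase (2 * i + 1), γ) := by
      rw [y_mul_w _ _ _ (Finset.notMem_erase _ _), Finset.insert_erase hN]
    generalize w (N.erase (2 * i + 1), γ) = z at *
    rw [hw, map_add, H_y i hz, map_zero, map_mul, omega_y_odd, add_mul, map_add, H_y i hoz,
      H_u i hoz]
    ring
  · -- the first case
    have hγ : γ i ≠ 0 := by
      rcases (mem_T _ _).mp hiT with h | h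
      · exact h
      · exact absurd h hN
    obtain ⟨γ', hγ'⟩ : ∃ γ', γ = γ' + Finsupp.single i 1 := by
      refine ⟨γ - Finsupp.single i 1, ?_⟩
      rw [tsub_add_cancel_of_le]
      rw [Finsupp.single_le_iff]
      exact Nat.one_le_iff_ne_zero.mpr hγ
    have hlow : Low i (N, γ') := by
      constructor
      · intro j hj
        have h1 : j ≤ i := hmax j ((mem_T _ _).mpr (Or.inr hj))
        rcases h1.lt_or_eq with h | h
        · exact h
        · rw [h] at hj
          exact absurd hj hN
      · intro j hj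
        refine hmax j ((mem_T _ _).mpr (Or.inl ?_))
        show γ j ≠ 0
        rw [hγ', Finsupp.add_apply]
        have := Finsupp.mem_support_iff.mp hj
        change γ' j ≠ 0 at this
        omega
    have hz : w (N, γ') ∈ L i := Submodule.subset_span ⟨_, hlow, rfl⟩
    have hoz := omega_w_mem i _ hlow
    have hw : w (N, γ) = u i * w (N, γ') := by
      rw [u_mul_w, ← hγ']
    generalize w (N, γ') = z at *
    rw [hw, map_add, H_u i hz, map_mul, omega_u, H_u i hoz, map_mul, homθ]
    generalize ω z = z' at *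
    generalize y (2 * i + 1) = θ at *
    generalize u i = v at *
    linear_combination char2 ((θ + v) * z) + char2 (θ * z')

/-- The span of the `w_{N,γ}` with `|γ| ≥ n`. -/
noncomputable def W (n : ℕ) : Submodule (ZMod 2) R :=
  Submodule.span (ZMod 2) {x | ∃ p : Idx, n ≤ p.2.degree ∧ x = w p}

lemma mul_mem_W {n : ℕ} {x : R} (hx : x ∈ W n) (r : R) : x * r ∈ W n := by
  induction hx using Submodule.span_induction with
  | mem x hx =>
    obtain ⟨⟨N, γ⟩, h1, rfl⟩ := hx
    have h2 : w (N, γ) * r = (w (N, 0) * r) * γ.prod fun m k => u m ^ k := by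
      have h3 : w (N, γ) = w (N, 0) * γ.prod fun m k => u m ^ k := by
        rw [← w_add, zero_add]
      rw [h3]
      ring
    rw [h2]
    have h4 : w (N, 0) * r ∈ Submodule.span (ZMod 2) (Set.range w) := span_w trivial
    generalize w (N, 0) * r = t at h4 ⊢
    clear h2
    induction h4 using Submodule.span_induction with
    | mem z hz =>
      obtain ⟨⟨N', γ'⟩, rfl⟩ := hz
      rw [← w_add]
      refine Submodule.subset_span ⟨_, ?_, rfl⟩
      show n ≤ (γ' + γ).degree
      rw [map_add]
      exact le_trans h1 (Nat.le_add_left _ _)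
    | zero => rw [zero_mul]; exact Submodule.zero_mem _
    | add y z _ _ hy hz => rw [add_mul]; exact Submodule.add_mem _ hy hz
    | smul c y _ hy => rw [smul_mul_assoc]; exact Submodule.smul_mem _ _ hy
  | zero => rw [zero_mul]; exact Submodule.zero_mem _
  | add y z _ _ hy hz => rw [add_mul]; exact Submodule.add_mem _ hy hz
  | smul c y _ hy => rw [smul_mul_assoc]; exact Submodule.smul_mem _ _ hy

lemma u_mul_W {n : ℕ} {x : R} (hx : x ∈ W n) (j : ℕ) : u j * x ∈ W (n + 1) := by
  induction hx using Submodule.span_induction with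
  | mem x hx =>
    obtain ⟨⟨N, γ⟩, h1, rfl⟩ := hx
    rw [u_mul_w]
    refine Submodule.subset_span ⟨_, ?_, rfl⟩
    show n + 1 ≤ (γ + Finsupp.single j 1).degree
    rw [map_add, Finsupp.degree_single]
    exact Nat.add_le_add_right h1 1
  | zero => rw [mul_zero]; exact Submodule.zero_mem _
  | add y z _ _ hy hz => rw [mul_add]; exact Submodule.add_mem _ hy hz
  | smul c y _ hy => rw [mul_smul_comm]; exact Submodule.smul_mem _ _ hy

/-- The ideal of `R` generated by the `u_j`. -/
noncomputable def K : Ideal R := Ideal.span (Set.range u)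

lemma K_pow_le (n : ℕ) (x : R) (hx : x ∈ K ^ n) : x ∈ W n := by
  induction n generalizing x with
  | zero =>
    have h1 : x ∈ Submodule.span (ZMod 2) (Set.range w) := span_w trivial
    refine Submodule.span_mono ?_ h1
    rintro x ⟨p, rfl⟩
    exact ⟨p, Nat.zero_le _, rfl⟩
  | succ n ih =>
    rw [pow_succ'] at hx
    induction hx using Submodule.mul_induction_on' with
    | mem_mul_mem k hk x hx =>
      have hx2 := ih x hx
      clear hx
      unfold K at hk
      induction hk using Submodule.span_induction with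
      | mem k hk =>
        obtain ⟨j, rfl⟩ := hk
        exact u_mul_W hx2 j
      | zero => rw [zero_mul]; exact Submodule.zero_mem _
      | add y z _ _ hy hz => rw [add_mul]; exact Submodule.add_mem _ hy hz
      | smul c y _ hy =>
        rw [smul_eq_mul, mul_assoc, mul_comm]
        exact mul_mem_W hy c
    | add x _ y _ hx hy => exact Submodule.add_mem _ hx hy

lemma uprod_mem_K (γ : ℕ →₀ ℕ) : (γ.prod fun m k => u m ^ k) ∈ K ^ γ.degree := by
  induction γ using Finsupp.induction_linear with
  | zero => simp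
  | add a b ha hb =>
    rw [Finsupp.prod_add_index' (by simp) (by intro m k l; exact pow_add _ _ _), map_add, pow_add]
    exact Ideal.mul_mem_mul ha hb
  | single m k =>
    rw [Finsupp.prod_single_index (by simp), Finsupp.degree_single]
    exact Ideal.pow_mem_pow (show u m ∈ K from Ideal.subset_span ⟨m, rfl⟩) k

lemma w_mem_K (N : Finset ℕ) (γ : ℕ →₀ ℕ) : w (N, γ) ∈ K ^ γ.degree := by
  unfold w
  exact Ideal.mul_mem_left _ _ (uprod_mem_K γ)

lemma H_mem (n : ℕ) (x : R) (hx : x ∈ W (n + 1)) : H x ∈ K ^ n := by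
  induction hx using Submodule.span_induction with
  | mem x hx =>
    obtain ⟨⟨N, γ⟩, h1, rfl⟩ := hx
    rw [H_w]
    unfold Sfun
    split_ifs with h2 h3
    · exact Submodule.zero_mem _
    · refine Ideal.mul_mem_left _ _ ?_
      refine Ideal.pow_le_pow_right ?_ (w_mem_K N _)
      change n + 1 ≤ γ.degree at h1
      show n ≤ (γ - Finsupp.single ((T (N, γ)).max' h2) 1).degree
      have h4 : γ.degree ≤ (γ - Finsupp.single ((T (N, γ)).max' h2) 1).degree + 1 := by
        have h5 : γ ≤ (γ - Finsupp.single ((T (N, γ)).max' h2) 1) +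
            Finsupp.single ((T (N, γ)).max' h2) 1 := le_tsub_add
        have h6 : ((γ - Finsupp.single ((T (N, γ)).max' h2) 1) +
            Finsupp.single ((T (N, γ)).max' h2) 1).degree =
            (γ - Finsupp.single ((T (N, γ)).max' h2) 1).degree + 1 := by
          rw [map_add, Finsupp.degree_single]
        rw [← h6]
        exact Finsupp.degree_mono h5
      omega
    · exact Submodule.zero_mem _
  | zero => rw [map_zero]; exact Submodule.zero_mem _
  | add y z _ _ hy hz => rw [map_add]; exact Submodule.add_mem _ hy hz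
  | smul c y _ hy =>
    rw [map_smul, Algebra.smul_def]
    exact Ideal.mul_mem_left _ _ hy

lemma homotopy (x : R) (hx : x ∈ W 1) : H (x + ω x) + (H x + ω (H x)) = ω x := by
  induction hx using Submodule.span_induction with
  | mem x hx =>
    obtain ⟨p, h1, rfl⟩ := hx
    apply homotopy_w
    by_contra h
    rw [Finset.not_nonempty_iff_eq_empty] at h
    have h2 : p.2 = 0 := by
      ext j
      by_contra h3
      have : j ∈ T p := (mem_T _ _).mpr (Or.inl h3)
      rw [h] at this
      exact absurd this (Finset.notMem_empty _)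
    rw [h2, map_zero] at h1
    omega
  | zero => simp
  | add y z _ _ hy hz =>
    have h1 : H ((y + z) + ω (y + z)) + (H (y + z) + ω (H (y + z))) =
        (H (y + ω y) + (H y + ω (H y))) + (H (z + ω z) + (H z + ω (H z))) := by
      simp only [map_add]
      ring
    rw [h1, hy, hz, map_add]
  | smul c y _ hy =>
    have h1 : H (c • y + ω (c • y)) + (H (c • y) + ω (H (c • y))) =
        c • (H (y + ω y) + (H y + ω (H y))) := by
      simp only [map_smul, map_add, smul_add]
    rw [h1, hy, map_smul]

/-- The key lemma. -/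
lemma exact_lemma (n : ℕ) (f : R) (hf : f ∈ K ^ (n + 1)) (hf2 : ω f = f) :
    ∃ g ∈ K ^ n, f = g + ω g := by
  have h1 := K_pow_le (n + 1) f hf
  have h2 : f ∈ W 1 := by
    refine Submodule.span_mono ?_ h1
    rintro x ⟨p, h3, h4⟩
    exact ⟨p, by omega, h4⟩
  have h3 := homotopy f h2
  rw [hf2, char2, map_zero, zero_add] at h3
  exact ⟨H f, H_mem n f h1, h3.symm⟩

lemma u_mem_S (j : ℕ) : u j ∈ S := omega_u j

lemma u_mem_I (j : ℕ) : (⟨u j, u_mem_S j⟩ : S) ∈ I :=
  ⟨e (2 * j + 2), by rw [omega_e]; rfl⟩

lemma dmem (m : ℕ) (g : R) (hg : g ∈ K ^ m) :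
    (⟨g + ω g, add_omega_mem g⟩ : S) ∈ I ^ (m + 1) := by
  induction m generalizing g with
  | zero =>
    rw [zero_add, pow_one]
    exact ⟨g, rfl⟩
  | succ m ih =>
    rw [pow_succ'] at hg
    induction hg using Submodule.mul_induction_on' with
    | mem_mul_mem k hk x hx =>
      unfold K at hk
      induction hk using Submodule.span_induction generalizing x with
      | mem k hk =>
        obtain ⟨j, rfl⟩ := hk
        have h1 : (⟨u j * x + ω (u j * x), add_omega_mem _⟩ : S) =
            ⟨u j, u_mem_S j⟩ * ⟨x + ω x, add_omega_mem x⟩ := by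
          apply Subtype.ext
          show u j * x + ω (u j * x) = u j * (x + ω x)
          rw [map_mul, omega_u]
          ring
        rw [h1, pow_succ']
        exact Ideal.mul_mem_mul (u_mem_I j) (ih x hx)
      | zero =>
        have h1 : (⟨0 * x + ω (0 * x), add_omega_mem _⟩ : S) = 0 := by
          apply Subtype.ext
          show 0 * x + ω (0 * x) = 0
          rw [zero_mul, map_zero, add_zero]
        rw [h1]
        exact Ideal.zero_mem _
      | add y z _ _ hy hz =>
        have h1 : (⟨(y + z) * x + ω ((y + z) * x), add_omega_mem _⟩ : S) =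
            ⟨y * x + ω (y * x), add_omega_mem _⟩ + ⟨z * x + ω (z * x), add_omega_mem _⟩ := by
          apply Subtype.ext
          show (y + z) * x + ω ((y + z) * x) = (y * x + ω (y * x)) + (z * x + ω (z * x))
          rw [add_mul, map_add]
          ring
        rw [h1]
        exact Ideal.add_mem _ (hy x hx) (hz x hx)
      | smul c y _ hy =>
        have h1 : (⟨(c • y) * x + ω ((c • y) * x), add_omega_mem _⟩ : S) =
            ⟨y * (c * x) + ω (y * (c * x)), add_omega_mem _⟩ := by
          apply Subtype.ext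
          show (c • y) * x + ω ((c • y) * x) = y * (c * x) + ω (y * (c * x))
          have : (c • y) * x = y * (c * x) := by rw [smul_eq_mul]; ring
          rw [this]
        rw [h1]
        exact hy (c * x) (Ideal.mul_mem_left _ _ hx)
    | add x _ y _ hx hy =>
      have h1 : (⟨(x + y) + ω (x + y), add_omega_mem _⟩ : S) =
          ⟨x + ω x, add_omega_mem _⟩ + ⟨y + ω y, add_omega_mem _⟩ := by
        apply Subtype.ext
        show (x + y) + ω (x + y) = (x + ω x) + (y + ω y)
        rw [map_add]
        ring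
      rw [h1]
      exact Ideal.add_mem _ hx hy

/-- All elements `x + ω(x)` are in the ideal `K`. -/
lemma d_mem_K (x : R) : x + ω x ∈ K := by
  have hy : ∀ m, Ideal.Quotient.mk K (ω (y m)) = Ideal.Quotient.mk K (y m) := by
    intro m
    by_cases hm : Even m
    · rw [omega_y_even m hm]
    · rw [Nat.not_even_iff_odd] at hm
      obtain ⟨j, rfl⟩ := hm
      rw [omega_y_odd, map_add]
      have : Ideal.Quotient.mk K (u j) = 0 :=
        Ideal.Quotient.eq_zero_iff_mem.mpr (Ideal.subset_span ⟨j, rfl⟩)
      rw [this, add_zero]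
  have key : ∀ x : R, Ideal.Quotient.mk K (ω x) = Ideal.Quotient.mk K x := by
    intro x
    have h4 : x ∈ Submodule.span (ZMod 2) (Set.range w) := span_w trivial
    induction h4 using Submodule.span_induction with
    | mem z hz =>
      obtain ⟨⟨N, γ⟩, rfl⟩ := hz
      rw [omega_w]
      unfold w
      rw [map_mul, map_mul, map_prod, map_prod]
      congr 1
      exact Finset.prod_congr rfl (fun m _ => hy m)
    | zero => simp
    | add y z _ _ hy hz => rw [map_add, map_add, map_add, hy, hz]
    | smul c y _ hy =>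
      rw [map_smul, Algebra.smul_def, Algebra.smul_def, map_mul, map_mul, hy]
  have h1 := (Ideal.Quotient.mk_eq_mk_iff_sub_mem _ _).mp (key x)
  have h2 : x + ω x = ω x - x + (x + x) := by ring
  rw [h2, char2, add_zero]
  exact h1

lemma RI_eq : I.map S.subtype = K := by
  apply le_antisymm
  · rw [Ideal.map_le_iff_le_comap]
    rintro s ⟨x, hx⟩
    show (s : R) ∈ K
    rw [hx]
    exact d_mem_K x
  · unfold K
    rw [Ideal.span_le]
    rintro x ⟨j, rfl⟩
    exact Ideal.mem_map_of_mem S.subtype (u_mem_I j)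

/-- `ω` is `n`-transverse for all `n`. -/
theorem transverse (n : ℕ) : ((I ^ n).map S.subtype).comap S.subtype = I ^ n := by
  apply le_antisymm _ Ideal.le_comap_map
  cases n with
  | zero => rw [pow_zero, Ideal.one_eq_top]; exact le_top
  | succ n =>
    rintro ⟨f, hf⟩ hf2
    rw [Ideal.mem_comap, Ideal.map_pow, RI_eq] at hf2
    obtain ⟨g, hg, hg2⟩ := exact_lemma n f hf2 hf
    have h1 : (⟨f, hf⟩ : S) = ⟨g + ω g, add_omega_mem g⟩ := Subtype.ext hg2
    rw [h1]
    exact dmem n g hg

end Q4.Omega
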